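import Mathlib
import Pool.Agent.H.MP_598d44_co.C

set_option autoImplicit false

namespace Pool.Agent.Results.MP_598d44_co.Exact

/-- sim-width at most k. -/
def SimLE {V : Type} (G : SimpleGraph V) (k : ℕ) : Prop :=
  Nat.card V ≤ 1 ∨ ∃ (ι : Type) (_ : Finite ι) (T : SimpleGraph ι) (L : V → ι), T.IsTree ∧
    (∀ w, (T.neighborSet w).ncard = 1 ∨ (T.neighborSet w).ncard = 3) ∧ Function.Injective L ∧
    (∀ w, (T.neighborSet w).ncard = 1 ↔ ∃ v, L v = w) ∧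
    ∀ u w, T.Adj u w → ∀ (m : ℕ) (a b : Fin m → V),
      (∀ i, G.Adj (a i) (b i) ∧ (T.deleteEdges {s(u, w)}).Reachable u (L (a i)) ∧
        (T.deleteEdges {s(u, w)}).Reachable w (L (b i))) →
      (∀ i j, i ≠ j → a i ≠ a j ∧ b i ≠ b j ∧
        ¬ G.Adj (a i) (a j) ∧ ¬ G.Adj (b i) (b j) ∧ ¬ G.Adj (a i) (b j)) → m ≤ k

theorem result (n : ℕ) (hn : 3 ≤ n) :
    IsLeast {k | SimLE (⊤ : SimpleGraph (Fin n)).lineGraph k} ⌈((n : ℚ) - 1) / 4⌉₊ := by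
  have e : ⌈((n : ℚ) - 1) / 4⌉₊ = (n + 2) / 4 := by
    obtain ⟨q, r, h, rfl⟩ : ∃ q r, r < 4 ∧ n = 4 * (q + 1) + r - 2 :=
      ⟨(n + 2) / 4 - 1, (n + 2) % 4, by omega, by omega⟩
    rw [show (4 * (q + 1) + r - 2 + 2) / 4 = q + 1 by omega, Nat.ceil_eq_iff (by omega),
      show 4 * (q + 1) + r - 2 = 4 * q + 2 + r by omega]
    have h1 : (r : ℚ) ≤ 3 := by exact_mod_cast (by omega : r ≤ 3)
    have h2 : (0 : ℚ) ≤ r := Nat.cast_nonneg r
    push_cast [Nat.add_sub_cancel]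
    constructor <;> linarith
  rw [e]
  constructor
  · obtain ⟨c, c1, c2⟩ := H.MP_598d44_co.col n hn
    obtain ⟨ι, _, T, L, t1, t2, t3, t4, t5⟩ := H.MP_598d44_co.spider c c1
    refine .inr ⟨ι, inferInstance, T, L, t1, t2, t3, t4, fun u w h m a b p q => ?_⟩
    obtain ⟨i, r | r⟩ := t5 u w h
    · exact c2 i m a (fun j => r _ (p j).2.1) fun i j h => ⟨(q i j h).1, (q i j h).2.2.1⟩
    · exact c2 i m b (fun j => r _ (p j).2.2) fun i j h => ⟨(q i j h).2.1, (q i j h).2.2.2.1⟩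
  · rintro k (h | ⟨ι, _, T, L, t1, t2, t3, t4, t5⟩)
    · obtain ⟨c, c1, -⟩ := H.MP_598d44_co.col n hn
      have := Nat.card_le_card_of_surjective c c1
      rw [Nat.card_fin] at this
      omega
    · obtain ⟨u, w, h, a, b, p, q⟩ := H.MP_598d44_co.lower hn L t1 t2 t3 t4
      exact t5 u w h _ a b p q

end Pool.Agent.Results.MP_598d44_co.Exact
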